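import Mathlib
import Pool.Agent.V1168.EV.Higher
import Pool.Agent.V1168.EV.Rel

/-!
# Perfectness of the cup product pairing for the products of arbitrary varieties with abelian
varieties outside of finitely many lines of slope vectors

Let `K i` (`i` in a finite set) be CM fields with pair flips (`PairFlips`): for any two complex
embeddings `φ` of `K i` and `ψ` of `K k` (with `i = k` or not) which are neither equal nor complex
conjugate, some automorphism of `ℂ` is the identity on `φ (K i)` and the complex conjugation on
`ψ (K k)`. One CM field `K` of degree `2 g` has this property if the Galois group of its normal closure
is the largest possible one (of order `2 ^ g g!`), or contains, for each pair of complex conjugate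
embeddings, an element which exchanges them and fixes all other embeddings, or contains all the
automorphisms that exchange two pairs in this sense (`g > 2`); several such fields with linearly
disjoint normal closures have it together. We fix an isomorphism `ν` of the algebraic closure of `ℚ_p`
with `ℂ`; it defines a `p`-adic valuation `v` of `ℂ` with `v p = 1`. The slope vector of a Weil number
`π` for `p ^ a` in `K i` is the function `2 v (φ π) - a` on the complex embeddings `φ` of `K i`
(`slopeVector`); it is odd: its values at conjugate embeddings are opposite.

Let `π i` be Weil numbers for `q = p ^ a` in `K i` with nonzero slope vectors, and let `f i` be monic
polynomials whose complex roots are conjugates of `π i` (`IsPolyOf`), for instance the characteristic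
polynomials of Frobenius of the abelian varieties in the isogeny classes of the `π i` over the field
with `q` elements. Let `A` be an abelian variety over the field with `Q = q ^ s` elements which is
isogenous to a product of powers of abelian varieties coming from the field with `q` elements, with
characteristic polynomials `f i` (`IsAbelian`).

A number `ρ` comes from the finite set `Ω` of complex numbers (`From p Ω`) if it is not zero and a power
of it is the product of a power of a conjugate of an element of `Ω`, or of `1`, and of a power of `p`.
(All Frobenius eigenvalues of a variety come from such a set `Ω`: take one root of each irreducible
factor of the characteristic polynomials.)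

Let `Z` be
**any** smooth projective variety over the field with `Q` elements such that the Frobenius
endomorphism of `Z` satisfies on each group `H^i(A × Z, ℚ(j))` of motivic cohomology a nonzero
rational polynomial all of whose complex roots come from `Ω`. This is true for
instance if the motive of `Z` is finite-dimensional (in the sense of Kimura and O'Sullivan) and the
Frobenius eigenvalues of `Z` come from `Ω`. Nothing is supposed about the Tate
conjecture for `Z`.

**The theorem: there is a set `E` of at most `|Ω|` lines, each of them in the space of the functions on
the complex embeddings of one of the fields `K i`, such that for all `a`, all `π i` whose slope vectors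
are not on the lines in `E`, all `f i`, `s`, `A` and all `Z` as above the statement below is true.**
The lines depend only on `ν`, the fields and `Ω`, and not on the Weil numbers, on the powers of the
abelian varieties, on the finite field or on `Z`. So for one field `K` and a given `Z` all the Weil
numbers in `K` are allowed, except those whose slope vector is a multiple of one of at most `|Ω|`
vectors in the `g`-dimensional space of the odd functions; for instance, at most `2 |Ω|` of the `2 ^ g`
slope types of the ordinary abelian varieties with complex multiplication by `K` are exceptional for
`Z`. (Exceptions to the Künneth formula behind the theorem are necessary: if `Z = A` then there are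
divisor classes in `H^1(A) ⊗ H^1(Z)`.)

My `AllCMTypesTimes` is about the case that the Frobenius eigenvalues are unrelated to the fields
`K i`. **Here they are arbitrary**: they may generate the same fields `K i`, or fields containing them. My
`EveryVarietyTimes` is about **one** family of Weil numbers `π i` (possibly in infinitely many fields),
and bounds the total degree of the fields of its exceptional members; for one field it only says
something if its degree is bigger than `|Ω|`. Here the fields are given, **all the Weil numbers in them
are considered at the same time**, the exceptions are on at most `|Ω|` lines, and `Ω` is any finite set
(not stable under the automorphisms, one of each set of conjugates is sufficient, so that `Ω` is in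
general much smaller; and its elements need not be in CM fields).

Let `d` be the dimension of `Z` and `g` the dimension of `A`. Then for all `i` and `n` **the pairing
`H^i(A × Z, ℚ(n)) × H^(2 (g + d) - i)(A × Z, ℚ(g + d - n)) → ℚ` is perfect if and only if the pairings
`H^(i - 2 k)(Z, ℚ(n - k)) × H^(2 d - (i - 2 k))(Z, ℚ(d - (n - k))) → ℚ`, `0 ≤ k ≤ g`, are
perfect**; and the Kunneth formula holds: `H^i(A × Z, ℚ(n))` is the direct sum of the products of some
products `D t` of divisors on `A` with the groups `H^(i - 2 c t)(Z, ℚ(n - c t))`. In particular all
the pairings for `A` are perfect (`Z = Spec k`), and the statement of the question for `A × Z` is
equivalent to the one for `Z`. The Frobenius endomorphism of `A × Z` acts on motivic cohomology of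
weight `n` as multiplication by `Q ^ n` (`IsPure`).

The framework: the Chow ring and the ring of correspondences of `A`, with rational coefficients, and
the cohomology of `A`, with the formal properties and the theorems of Tate on divisors and of Kimura
on the nilpotence of homologically trivial correspondences (`AbelianData`, `IsAbelian`); and theories
relative to `Z` (`RelData`, `IsRel`): the groups `H^i(Z, j)` and `H^i(A × Z, j)`, with the products
with classes on `A`, the push-forward from `A × Z` to `Z`, the operation of the correspondences from
`A` to `A` on `H^i(A × Z, j)` and the Frobenius endomorphism of `Z`. This is the framework of the
starting file `AlmostAllAbelianFactors` (MP_81b968_ag). A pairing `V × W → ℚ` is perfect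
(`IsPerfPair`) if both maps `V → Hom(W, ℚ)` and `W → Hom(V, ℚ)` are bijective.

The proof. Let `x i` be the slope vectors of the `π i`, and let `ρ` be a number that comes from
`β ∈ Ω`. If a product of `ρ` and of roots of the `f i`, no two of them complex conjugate, is a power of
`q` up to a root of unity, then, computing valuations, there are odd functions `n i`, not all zero, and
constants with `∑ n i φ * x i (σ φ) = c₁ v (σ β) + c₂` for all automorphisms `σ` of `ℂ` (the sum over all `i`
and all embeddings `φ`; the automorphism in the definition of `From` is absorbed by `n`). Take the odd
part, and average over the automorphisms which fix a given embedding `φ₀` of `K i`: by the pair flips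
the average of an odd function is zero except at `φ₀` and its conjugate, so that
`n i (σ⁻¹ φ₀) * x i φ₀` is determined by `c₁` and `β` (`EV.key`). For `β = 1` all these numbers are
zero, and there are no relations, as `x i` is not zero. In general it follows that, for each `i` with `n i` not zero, `x i` is
determined up to a factor by `β`: this is the exceptional line of `β` (`EV.exists_lines`). (The odd
functions on the embeddings of the `K i` are absolutely irreducible representations, not isomorphic
for different `i`.) Hence there are no such relations outside of the lines (`EV.exactPair_of`).
If a Weil number `α` of the cohomology of `A` and a root `ρ` of the polynomial of the Frobenius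
endomorphism `φ` of `Z` have the product `Q ^ j`, then `α` is a product of pairs of complex conjugate
numbers, so that the eigenvectors of the Frobenius endomorphism `F` of `A` for `α` are products of
divisor classes. Let `p` be the projector given by dual systems `D t`, `E t` of products of divisor
classes on `A`. For a suitable polynomial `P` the correspondence `(1 - p) P (F)` is homologically
trivial, hence nilpotent, and `P (F)` is invertible on the elements on which `F φ` acts as `Q ^ j`,
since there `F` satisfies the polynomial with the roots `Q ^ j / ρ`. So `p` acts there as the
identity. The pairing for
`A × Z` is the orthogonal sum of the pairings for `Z`, up to the order of the `D t` and `E t`.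
-/

set_option autoImplicit false

namespace Pool.Agent.Results.MP_a9d3bd_ag.ExceptionalSlopeLines

open NumberField Pool.Agent.V1168.EV

/-- **The cup product pairing for `A × Z` in the bidegree `(i, n)` is perfect if and only if the ones for
`Z` in the bidegrees `(i - 2 k, n - k)`, `0 ≤ k ≤ dim A`, are, for all `Z`
with Frobenius eigenvalues from the finite set `Ω` and all abelian varieties `A` given by Weil numbers
in the CM fields `K i` (with pair flips) with slope vectors outside of at most `|Ω|` lines.** -/
theorem result {p : ℕ} [Fact p.Prime] (ν : PadicAlgCl p ≃+* ℂ) {I : Type} [Finite I]
    (K : I → Type) [∀ i, Field (K i)] [∀ i, NumberField (K i)] [∀ i, IsCMField (K i)]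
    (hK : PairFlips K) (Ω : Finset ℂ) :
    ∃ E : Finset (Σ i, ((K i →+* ℂ) → ℝ)), E.card ≤ Ω.card ∧
      ForAllOutside ν K (PerfectHigher p Ω) E := by
  obtain ⟨E, hE, h⟩ := exists_lines_forall ν K hK Ω
  exact ⟨E, hE, h _ fun q f hq hR => perfectHigher hq hR⟩

end Pool.Agent.Results.MP_a9d3bd_ag.ExceptionalSlopeLines
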