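import Pool.Agent.H255R.MR.Adeq

/-!
# The motivic cup product pairing for products of regular surfaces and for products of curves
-/

open CategoryTheory AlgebraicGeometry

universe u v w

namespace Pool.Agent.Results.MP_a9d3bd_ag.RegularSurfaces

open Pool.Agent.H914 Pool.Agent.H914.VarClass Pool.Agent.H914.VarClass.Obj Pool.Agent.W492.BB
  Pool.Agent.W550.Corr Pool.Agent.TH133 Pool.Agent.TH829.Prime Pool.Agent.H255R.HR
  Pool.Agent.H255R.MR

/-- In the weights `n ≤ R`, the higher classes on `X` (those of the family `𝓜`) vanish, and the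
numerically trivial cycles of codimension `n` on `X` are rationally equivalent to zero. -/
def PerfectUpTo {k : Type u} [Field k] {𝒱 : VarClass k} {C : TheoryData.{u, v, 0} 𝒱 ℚ}
    {M : ModData.{u, v, v} C} (𝓜 : Fam M) (R : ℤ) (X : 𝒱.Obj) : Prop :=
  (∀ n ≤ R, ∀ t : M.A X, 𝓜.Mem X n t → t = 0) ∧
    ∀ n ≤ R, ∀ a : C.A X, C.Deg n a → NumTrivial C n a → a = 0

/-- Consider the smooth projective varieties `X` over the algebraic closure of a finite field, and
let `M(X)` be the sum of the higher motivic cohomology groups `H^{2n-m}(X, ℚ(n)) = CH^n(X, m)_ℚ`,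
over `n` and over `m ≥ 1`. (The groups of cycles modulo numerical equivalence are
finite-dimensional, and Galois descent holds. Therefore the pairings `⟨ , ⟩_{i,n}` of the problem are
perfect for all models of `X` over finite fields and for all `i` and `n` if and only if `PerfectUpTo`
holds for `X` and all `R`.) More generally, let `M` be a module theory over the Chow groups, graded
by weights.

Let `𝒞` be a class of curves with `HasGalQuotients` (for example the elliptic and the hyperelliptic
curves, or one hyperelliptic curve). For all varieties `U` and all `R` and `N` the following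
statements are equivalent.

1. `PerfectUpTo` holds in the weights at most `R` for the varieties `U × A` and `U × A × S`, where
`A` is a product of at most `N` regular surfaces dominated by products of two curves in `𝒞`, and
`S` is a curve in `𝒞`.
2. The same without the condition that the surfaces be regular.
3. `PerfectUpTo` holds in the weights at most `R` for `U × W`, where `W` is a product of at most
`2 N + 1` curves in `𝒞`.
4. `PerfectUpTo` holds in the weights at most `R` for all varieties which are dominated by varieties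
`U × W` as in 3. -/
theorem result {k : Type u} [Field k] {𝒱 : VarClass k} (C : TheoryData.{u, v, 0} 𝒱 ℚ)
    [IsChowProj C] (hC : IsModTheory (chowMod C)) {F : Type w} [Field F] [CharZero F]
    (H : WeilTheoryData.{u, v, w} C F) [IsWeilProj H] (M : ModData.{u, v, v} C)
    (hM : IsModTheory M) (𝓜 : Fam M) (𝒞 : 𝒱.Obj → Prop)
    (hG : HasGalQuotients.{u, v, w, v} H 𝒞) (U : 𝒱.Obj) (R : ℤ) (N : ℕ) :
    List.TFAE [
      ∀ m ≤ N, ∀ A : 𝒱.Obj, IsProdOf U (IsRegDominated.{u, v, w, v} H 𝒞) m A →
        PerfectUpTo 𝓜 R A ∧ ∀ S : 𝒱.Obj, 𝒞 S → PerfectUpTo 𝓜 R (A.prod S),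
      ∀ m ≤ N, ∀ A : 𝒱.Obj, IsProdOf U (IsDominated.{u, v, v} C 𝒞) m A →
        PerfectUpTo 𝓜 R A ∧ ∀ S : 𝒱.Obj, 𝒞 S → PerfectUpTo 𝓜 R (A.prod S),
      ∀ l ≤ 2 * N + 1, ∀ W : 𝒱.Obj, IsProdOf U 𝒞 l W → PerfectUpTo 𝓜 R W,
      ∀ l ≤ 2 * N + 1, ∀ W X : 𝒱.Obj, IsProdOf U 𝒞 l W → IsDominatedBy C W X →
        PerfectUpTo 𝓜 R X] :=
  tfaeM (M := M) (M' := chowMod C) (𝓜 := 𝓜) (𝓝 := zeroFam M)
    (𝓜' := adFam (isAdequate_numFam (one_ne H))) (𝓝' := zeroFam (chowMod C)) hG U R N _ fun _ =>
    ⟨fun h => ⟨h.1, fun r hr a ha => h.2 r hr a ha.1 ha.2⟩,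
      fun h => ⟨h.1, fun r hr a ha h0 => h.2 r hr a ⟨ha, h0⟩⟩⟩

end Pool.Agent.Results.MP_a9d3bd_ag.RegularSurfaces
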